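import Pool.Agent.U95.TD.Final

/-!
Turing degrees of countably categorical theories with computable models: a negative answer.
-/

set_option autoImplicit false

namespace Pool.Agent.Results.MP_f36693_lc.NotAllDegrees

open Pool.Agent.U95.TD
open Pool.Agent.Helper227 (TLe)
open Pool.Agent.Helper750.DC (Lang Fml)

/-- There is a set `D` of natural numbers, Turing reducible to `0^(ω)`, such that no complete
theory (countably categorical or not) in a computable language which possesses a computable model
has the Turing degree of `D`. -/
theorem result : ∃ D : ℕ → Bool, TLe D zeroOmega ∧
    ∀ (L : Lang) (T : Set Fml), L.IsComputable → IsCompleteTheory L T → HasComputableModel L T →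
      ¬ (TLe D (theoryChar T) ∧ TLe (theoryChar T) D) :=
  final

end Pool.Agent.Results.MP_f36693_lc.NotAllDegrees
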